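import Pool.Agent.H50.ODG.Targets

set_option autoImplicit false

namespace Pool.Agent.H65.ODG

open Pool.Agent.H57.CP Pool.Agent.H39.TO Pool.Agent.H39.OD Pool.Agent.H50.ODG

theorem ais (a : Equiv.Perm H3) (z : H3) : a (a⁻¹ z) = z := a.apply_symm_apply z

theorem clos_agree (V : Set H3) (S S' : Set (Equiv.Perm H3)) (hV : ∀ g ∈ S, ∀ z, g z ∈ V ↔ z ∈ V)
    (h : ∀ g ∈ S, ∃ g' ∈ Subgroup.closure S', ∀ z ∈ V, g' z = g z) :
    ∀ g ∈ Subgroup.closure S, (∀ z, g z ∈ V ↔ z ∈ V) ∧ ∃ g' ∈ Subgroup.closure S', ∀ z ∈ V, g' z = g z := by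
  intro g hg
  induction hg using Subgroup.closure_induction with
  | mem g hg => exact ⟨hV g hg, h g hg⟩
  | one => exact ⟨fun z => by simp, 1, Subgroup.one_mem _, fun z _ => rfl⟩
  | mul a b _ _ ha hb =>
    obtain ⟨ha1, a', ha', ha2⟩ := ha
    obtain ⟨hb1, b', hb', hb2⟩ := hb
    refine ⟨fun z => by rw [Equiv.Perm.mul_apply, ha1, hb1], a' * b', Subgroup.mul_mem _ ha' hb', fun z hz => ?_⟩
    rw [Equiv.Perm.mul_apply, Equiv.Perm.mul_apply, hb2 z hz, ha2 _ ((hb1 z).2 hz)]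
  | inv a _ ha =>
    obtain ⟨ha1, a', ha', ha2⟩ := ha
    have h1 : ∀ z, a⁻¹ z ∈ V ↔ z ∈ V := fun z => by
      rw [← ha1 (a⁻¹ z), ais]
    refine ⟨h1, a'⁻¹, Subgroup.inv_mem _ ha', fun z hz => ?_⟩
    rw [Equiv.Perm.inv_eq_iff_eq, ha2 _ ((h1 z).2 hz), ais]

theorem img2_congr (f : Set (Set H3)) (g g' : Equiv.Perm H3) (h : ∀ e ∈ f, ∀ z ∈ e, g z = g' z) :
    (Set.image g) '' f = (Set.image g') '' f :=
  Set.image_congr fun e he => Set.image_congr fun z hz => h e he z hz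

theorem pf_D0R (hSYG : T_SYG) (hFLB : T_FLB) : T_D0R := by
  intro K x y f D r q m H
  obtain ⟨hone, hmul, hinv, -, -⟩ := hSYG K
  have hpow : ∀ n : ℕ, Sy K (D ^ n) := by
    intro n
    induction n with
    | zero => simpa using hone
    | succ n ih => rw [pow_succ]; exact hmul _ _ ih H.sD
  set D' := D ^ (q + 1) with hD'
  have hagree : ∀ z ∈ K.V, D' z = D z := by
    intro z hz
    rw [hD', pow_succ, Equiv.Perm.mul_apply]
    exact H.o1' _ ((H.sD.v z).2 hz)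
  have hDV : ∀ z, D z ∈ K.V ↔ z ∈ K.V := H.sD.v
  have hDV' : ∀ z, D' z ∈ K.V ↔ z ∈ K.V := (hpow (q + 1)).v
  have hrV : ∀ z, r z ∈ K.V ↔ z ∈ K.V := H.sr.v
  have hinvV : ∀ a : Equiv.Perm H3, (∀ z, a z ∈ K.V ↔ z ∈ K.V) → ∀ z, a⁻¹ z ∈ K.V ↔ z ∈ K.V := fun a ha z => by
    rw [← ha (a⁻¹ z), ais]
  have hagi : ∀ z ∈ K.V, D'⁻¹ z = D⁻¹ z := by
    intro z hz
    rw [Equiv.Perm.inv_eq_iff_eq, hagree _ ((hinvV D hDV z).2 hz), ais]
  have hcj : ∀ z ∈ K.V, (D' * r * D'⁻¹) z = (D * r * D⁻¹) z := by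
    intro z hz
    simp only [Equiv.Perm.mul_apply]
    rw [hagi z hz, hagree _ ((hrV _).2 ((hinvV D hDV z).2 hz))]
  have hcV : ∀ z, (D * r * D⁻¹) z ∈ K.V ↔ z ∈ K.V := fun z => by
    simp only [Equiv.Perm.mul_apply]
    rw [hDV, hrV, hinvV D hDV]
  have hcV' : ∀ z, (D' * r * D'⁻¹) z ∈ K.V ↔ z ∈ K.V := fun z => by
    simp only [Equiv.Perm.mul_apply]
    rw [hDV', hrV, hinvV D' hDV']
  have hx : x ∈ K.V := by
    rw [H.eV]; exact ⟨1, Subgroup.one_mem _, rfl⟩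
  have hy : y ∈ K.V := by rw [← H.rx]; exact (hrV x).2 hx
  -- the groups
  have G1 : ∀ g ∈ Gr D r, (∀ z, g z ∈ K.V ↔ z ∈ K.V) ∧ ∃ g' ∈ Gr D' r, ∀ z ∈ K.V, g' z = g z := by
    refine clos_agree K.V {D, r} {D', r} ?_ ?_
    · rintro g (rfl | rfl)
      · exact hDV
      · exact hrV
    · rintro g (rfl | rfl)
      · exact ⟨D', Subgroup.subset_closure (by simp), hagree⟩
      · exact ⟨_, Subgroup.subset_closure (by simp), fun _ _ => rfl⟩
  have G2 : ∀ g ∈ Gr D' r, (∀ z, g z ∈ K.V ↔ z ∈ K.V) ∧ ∃ g' ∈ Gr D r, ∀ z ∈ K.V, g' z = g z := by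
    refine clos_agree K.V {D', r} {D, r} ?_ ?_
    · rintro g (rfl | rfl)
      · exact hDV'
      · exact hrV
    · rintro g (rfl | rfl)
      · exact ⟨D, Subgroup.subset_closure (by simp), fun z hz => (hagree z hz).symm⟩
      · exact ⟨_, Subgroup.subset_closure (by simp), fun _ _ => rfl⟩
  have F1 : ∀ g ∈ Subgroup.closure {r, D * r * D⁻¹}, (∀ z, g z ∈ K.V ↔ z ∈ K.V) ∧
      ∃ g' ∈ Subgroup.closure {r, D' * r * D'⁻¹}, ∀ z ∈ K.V, g' z = g z := by
    refine clos_agree K.V {r, D * r * D⁻¹} {r, D' * r * D'⁻¹} ?_ ?_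
    · rintro g (rfl | rfl)
      · exact hrV
      · exact hcV
    · rintro g (rfl | rfl)
      · exact ⟨_, Subgroup.subset_closure (by simp), fun _ _ => rfl⟩
      · exact ⟨D' * r * D'⁻¹, Subgroup.subset_closure (by simp), hcj⟩
  have F2 : ∀ g ∈ Subgroup.closure {r, D' * r * D'⁻¹}, (∀ z, g z ∈ K.V ↔ z ∈ K.V) ∧
      ∃ g' ∈ Subgroup.closure {r, D * r * D⁻¹}, ∀ z ∈ K.V, g' z = g z := by
    refine clos_agree K.V {r, D' * r * D'⁻¹} {r, D * r * D⁻¹} ?_ ?_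
    · rintro g (rfl | rfl)
      · exact hrV
      · exact hcV'
    · rintro g (rfl | rfl)
      · exact ⟨_, Subgroup.subset_closure (by simp), fun _ _ => rfl⟩
      · exact ⟨D * r * D⁻¹, Subgroup.subset_closure (by simp), fun z hz => (hcj z hz).symm⟩
  have hfV : ∀ e ∈ f, ∀ z ∈ e, z ∈ K.V := by
    intro e he z hz
    rw [H.ef] at he
    obtain ⟨g, hg, h | h⟩ := he
    · rw [h] at hz
      obtain ⟨w, hw, rfl⟩ := hz
      rw [(F1 g hg).1]
      rcases hw with rfl | rfl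
      · exact hx
      · exact hy
    · rw [h] at hz
      obtain ⟨w, hw, rfl⟩ := hz
      rw [(F1 g hg).1]
      rcases hw with rfl | rfl
      · exact hx
      · exact (hDV y).2 hy
  have hDy : D' y = D y := hagree y hy
  have hpair : ∀ (g g' : Equiv.Perm H3) (w : H3), w ∈ K.V → (∀ z ∈ K.V, g' z = g z) →
      g '' {x, w} = g' '' {x, w} := by
    intro g g' w hw h
    rw [Set.image_pair, Set.image_pair, h x hx, h w hw]
  refine ⟨hpow (q + 1), H.sr, H.fl, H.ne, ?_, H.rx, H.ry, H.rf, H.rr, ?_, ?_, H.m0, ?_, ?_, ?_, ?_, ?_, ?_⟩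
  · rw [hagree x hx, H.Dx]
  · intro n
    rw [hD', ← pow_mul, H.o1]
    constructor
    · intro h
      have h2 : q ∣ q * n + n := by
        have : (q + 1) * n = q * n + n := by ring
        rwa [this] at h
      exact (Nat.dvd_add_right (Dvd.intro n rfl)).1 h2
    · intro h
      exact Dvd.dvd.mul_left h _
  · intro z hz
    have h1 : ∀ k : ℕ, ((D ^ q) ^ k) z = z := by
      intro k
      induction k with
      | zero => simp
      | succ k ih => rw [pow_succ, Equiv.Perm.mul_apply, H.o1' z hz, ih]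
    rw [hD', ← pow_mul, mul_comm, pow_mul]
    exact h1 _
  · -- o2
    intro z hz
    have hstep : ∀ w ∈ K.V, (r * (D' * r * D'⁻¹)) w = (r * (D * r * D⁻¹)) w := fun w hw => by
      show r ((D' * r * D'⁻¹) w) = r ((D * r * D⁻¹) w)
      rw [hcj w hw]
    have hstV : ∀ w, (r * (D * r * D⁻¹)) w ∈ K.V ↔ w ∈ K.V := fun w => by
      rw [Equiv.Perm.mul_apply, hrV, hcV]
    have h1 : ∀ k : ℕ, ∀ w ∈ K.V, ((r * (D' * r * D'⁻¹)) ^ k) w = ((r * (D * r * D⁻¹)) ^ k) w := by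
      intro k
      induction k with
      | zero => intro w _; rfl
      | succ k ih =>
        intro w hw
        rw [pow_succ, pow_succ]
        show ((r * (D' * r * D'⁻¹)) ^ k) ((r * (D' * r * D'⁻¹)) w) =
          ((r * (D * r * D⁻¹)) ^ k) ((r * (D * r * D⁻¹)) w)
        rw [hstep w hw]
        exact ih _ ((hstV w).2 hw)
    rw [h1 m z hz]
    exact H.o2 z hz
  · -- eV
    rw [H.eV]
    ext z
    constructor
    · rintro ⟨g, hg, rfl⟩
      obtain ⟨-, g', hg', h⟩ := G1 g hg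
      exact ⟨g', hg', (h x hx).symm⟩
    · rintro ⟨g, hg, rfl⟩
      obtain ⟨-, g', hg', h⟩ := G2 g hg
      exact ⟨g', hg', (h x hx).symm⟩
  · rw [H.eE]
    ext e
    constructor
    · rintro ⟨g, hg, rfl⟩
      obtain ⟨-, g', hg', h⟩ := G1 g hg
      exact ⟨g', hg', hpair g g' y hy h⟩
    · rintro ⟨g, hg, rfl⟩
      obtain ⟨-, g', hg', h⟩ := G2 g hg
      exact ⟨g', hg', hpair g g' y hy h⟩
  · rw [H.eF]
    ext e
    constructor
    · rintro ⟨g, hg, rfl⟩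
      obtain ⟨-, g', hg', h⟩ := G1 g hg
      exact ⟨g', hg', img2_congr f g g' fun e he z hz => (h z (hfV e he z hz)).symm⟩
    · rintro ⟨g, hg, rfl⟩
      obtain ⟨-, g', hg', h⟩ := G2 g hg
      exact ⟨g', hg', img2_congr f g g' fun e he z hz => (h z (hfV e he z hz)).symm⟩
  · have hgoal : ({e | ∃ g ∈ Subgroup.closure {r, D * r * D⁻¹}, e = g '' {x, y} ∨ e = g '' {x, D y}} :
        Set (Set H3)) =
        {e | ∃ g ∈ Subgroup.closure {r, D' * r * D'⁻¹}, e = g '' {x, y} ∨ e = g '' {x, D' y}} := by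
      rw [hDy]
      ext e
      constructor
      · rintro ⟨g, hg, h1⟩
        obtain ⟨-, g', hg', h⟩ := F1 g hg
        refine ⟨g', hg', ?_⟩
        rcases h1 with rfl | rfl
        · exact Or.inl (hpair g g' y hy h)
        · exact Or.inr (hpair g g' (D y) ((hDV y).2 hy) h)
      · rintro ⟨g, hg, h1⟩
        obtain ⟨-, g', hg', h⟩ := F2 g hg
        refine ⟨g', hg', ?_⟩
        rcases h1 with rfl | rfl
        · exact Or.inl (hpair g g' y hy h)
        · exact Or.inr (hpair g g' (D y) ((hDV y).2 hy) h)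
    rw [← hgoal]
    exact H.ef
  · have h1 : (Set.image (D'⁻¹ : Equiv.Perm H3)) '' f = (Set.image (D⁻¹ : Equiv.Perm H3)) '' f :=
      img2_congr f _ _ fun e he z hz => hagi z (hfV e he z hz)
    rw [h1]
    exact H.out

end Pool.Agent.H65.ODG
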