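import Pool.Agent.H50.ODG.Targets

set_option autoImplicit false

namespace Pool.Agent.H65.ODG

open Pool.Agent.H57.CP Pool.Agent.H39.TO Pool.Agent.H39.OD Pool.Agent.H50.ODG

theorem mk_sum_left (s : Finset ℕ) (f : ℕ → V4) (y : V4) : mk (∑ i ∈ s, f i) y = ∑ i ∈ s, mk (f i) y := by
  simp only [mk, Finset.sum_apply, Finset.sum_mul, Finset.sum_sub_distrib]

theorem mk_sum_right (s : Finset ℕ) (f : ℕ → V4) (y : V4) : mk y (∑ i ∈ s, f i) = ∑ i ∈ s, mk y (f i) := by
  simp only [mk, Finset.sum_apply, Finset.mul_sum, Finset.sum_sub_distrib]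

theorem pf_FXP (hEXT : T_EXT) (hCTR : T_CTR) : T_FXP := by
  intro g m x hg hm hx
  obtain ⟨A, hA, hE⟩ := hEXT g hg
  set p : ℕ → V4 := fun k => ((g ^ k) x).1 with hp
  set z0 : V4 := ∑ k ∈ Finset.range m, p k with hz0
  have hAz : A z0 = z0 := by
    have h1 : A z0 = ∑ k ∈ Finset.range m, p (k + 1) := by
      rw [hz0, map_sum]
      refine Finset.sum_congr rfl fun k _ => ?_
      simp only [hp]
      rw [hE, pow_succ', Equiv.Perm.mul_apply]
    have h2 : ∑ k ∈ Finset.range m, p (k + 1) + p 0 = ∑ k ∈ Finset.range m, p k + p m := by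
      rw [← Finset.sum_range_succ', Finset.sum_range_succ]
    have h3 : p m = p 0 := by simp [hp, hx]
    rw [h1]
    rw [h3] at h2
    exact add_right_cancel h2
  have hN : 1 ≤ mk z0 z0 := by
    have h1 : mk z0 z0 = ∑ i ∈ Finset.range m, ∑ j ∈ Finset.range m, mk (p i) (p j) := by
      rw [hz0, mk_sum_left]
      refine Finset.sum_congr rfl fun i _ => ?_
      rw [mk_sum_right]
    have h2 : ∀ i j, 1 ≤ mk (p i) (p j) := fun i j => (hCTR ((g ^ i) x) ((g ^ j) x) x).1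
    rw [h1]
    have h3 : ∑ i ∈ Finset.range m, ∑ j ∈ Finset.range m, (1 : ℝ) ≤
        ∑ i ∈ Finset.range m, ∑ j ∈ Finset.range m, mk (p i) (p j) :=
      Finset.sum_le_sum fun i _ => Finset.sum_le_sum fun j _ => h2 i j
    have h4 : (1 : ℝ) ≤ ∑ i ∈ Finset.range m, ∑ j ∈ Finset.range m, (1 : ℝ) := by
      simp only [Finset.sum_const, Finset.card_range, nsmul_eq_mul, mul_one]
      have : (1 : ℝ) ≤ m := by exact_mod_cast hm
      nlinarith
    linarith
  have hpos : 0 < z0 3 := by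
    rw [hz0, Finset.sum_apply]
    exact Finset.sum_pos (fun i _ => ((g ^ i) x).2.2) ⟨0, Finset.mem_range.2 hm⟩
  set N := mk z0 z0 with hNdef
  have hNp : 0 < N := by linarith
  have hs : 0 < Real.sqrt N := Real.sqrt_pos.2 hNp
  have hss : Real.sqrt N * Real.sqrt N = N := Real.mul_self_sqrt hNp.le
  have hsc : ∀ (c : ℝ) (v : V4), mk (c • v) (c • v) = c * c * mk v v := by
    intro c v
    simp only [mk, Pi.smul_apply, smul_eq_mul]; ring
  have h1 : mk ((Real.sqrt N)⁻¹ • z0) ((Real.sqrt N)⁻¹ • z0) = 1 := by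
    rw [hsc, ← hNdef, ← mul_inv, hss, inv_mul_cancel₀ hNp.ne']
  have h2 : 0 < ((Real.sqrt N)⁻¹ • z0) 3 := by
    simp only [Pi.smul_apply, smul_eq_mul]
    positivity
  let z : H3 := ⟨(Real.sqrt N)⁻¹ • z0, h1, h2⟩
  have h4 : A z.1 = z.1 := by
    show A ((Real.sqrt N)⁻¹ • z0) = (Real.sqrt N)⁻¹ • z0
    rw [map_smul, hAz]
  exact ⟨z, Subtype.ext ((hE z).symm.trans h4)⟩

end Pool.Agent.H65.ODG
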